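import Mathlib
import Pool.Agent.helper60.POS.Defs

set_option autoImplicit false

/-! Module D: the collapse (countable partial maps). -/

open Cardinal Order

namespace Pool.Agent.helper60.POS

section D

variable {A B : Type}

theorem Ctp.sigmaClosed : SigmaClosed (Ctp A B) := by
  classical
  intro f hf
  refine ⟨⟨fun a => if h : ∃ b, ∃ n, (f n).f a = some b then some h.choose else none, ?_⟩, ?_⟩
  · refine (Set.countable_iUnion fun n => (f n).cnt).mono ?_
    intro a ha
    simp only [Set.mem_setOf_eq] at ha
    by_cases h : ∃ b, ∃ n, (f n).f a = some b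
    · obtain ⟨b, n, hn⟩ := h
      refine Set.mem_iUnion.2 ⟨n, ?_⟩
      simp [hn]
    · simp [h] at ha
  · intro n a b hb
    have h : ∃ b, ∃ n, (f n).f a = some b := ⟨b, n, hb⟩
    show (if h : ∃ b, ∃ n, (f n).f a = some b then some h.choose else none) = some b
    rw [dif_pos h]
    obtain ⟨m, hm⟩ := h.choose_spec
    rcases le_total n m with hnm | hnm
    · have h1 := hf hnm a b hb
      rw [hm] at h1
      exact h1
    · have h1 := hf hnm a _ hm
      rw [hb] at h1
      exact h1.symm

theorem Ctp.exists_ext (p : Ctp A B) (a : A) (ha : p.f a = none) (b : B) :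
    ∃ q ≤ p, q.f a = some b := by
  classical
  refine ⟨⟨Function.update p.f a (some b), ?_⟩, ?_, ?_⟩
  · refine (p.cnt.insert a).mono ?_
    intro x hx
    by_cases hxa : x = a
    · exact Or.inl hxa
    · right
      simpa [Function.update_of_ne hxa] using hx
  · intro x c hc
    have hxa : x ≠ a := by
      rintro rfl
      rw [ha] at hc
      exact absurd hc (by simp)
    show Function.update p.f a (some b) x = some c
    rw [Function.update_of_ne hxa]
    exact hc
  · show Function.update p.f a (some b) a = some b
    rw [Function.update_self]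

theorem Ctp.exists_val [Nonempty B] (p : Ctp A B) (a : A) : ∃ q ≤ p, ∃ b, q.f a = some b := by
  by_cases h : p.f a = none
  · obtain ⟨q, hq, hq'⟩ := Ctp.exists_ext p a h (Classical.arbitrary B)
    exact ⟨q, hq, _, hq'⟩
  · obtain ⟨b, hb⟩ := Option.ne_none_iff_exists'.1 h
    exact ⟨p, le_refl p, b, hb⟩

theorem Ctp.exists_onto [Uncountable A] (p : Ctp A B) (b : B) :
    ∃ q ≤ p, ∃ a, q.f a = some b := by
  have h : ∃ a, p.f a = none := by
    by_contra hne
    push Not at hne
    have h1 : (Set.univ : Set A).Countable := p.cnt.mono fun a _ => hne a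
    exact not_countable (Set.countable_univ_iff.1 h1)
  obtain ⟨a, ha⟩ := h
  obtain ⟨q, hq, hq'⟩ := Ctp.exists_ext p a ha b
  exact ⟨q, hq, a, hq'⟩

end D

end Pool.Agent.helper60.POS
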